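import Pool.Agent.H47R4.GCore
import Pool.Agent.J4H70.Cyc

/-!
# All but boundedly many dyadic windows `[2 ^ s N, (1 + ε) 2 ^ s N]` contain a prime with a prime predecessor

Let `S q = 2 q - 1`, so that `S^k q = 2 ^ k q - (2 ^ k - 1)`. The question asks for a prime `p = S q`, `q` prime, in every
window `[N, 2 N]` with large `N`. We show: there is an absolute constant `C` such that for all `ε > 0`, `T` and `D ≥ 1`
and all large `N` the following holds for all integers `0 ≤ s ≤ T` with at most `C D` exceptions: there are at least `D`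
integers `1 ≤ k ≤ T` for which there is a prime `p = S^k q`, `q` prime, in the narrow window `[2 ^ s N, (1 + ε) 2 ^ s N]`.
As `T` is arbitrary, this holds for almost all scales, and (with `D` proportional to `T`) with a positive proportion of the
iterates `k ≤ T`.

Proof. The localised Maynard-Tao theorem of the starting files (`Pool.Agent.H47R4.tent_core`) says that of the numbers
`S^t n`, `t ∈ E`, at least two are prime for some `n` in any given narrow window, if the set `E` of times has `C` elements.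
So a set of scales no two elements of which are linked, in the sense that `S^(j - i) q = p` for a prime `q` and a prime
`p` in the window with the number `j`, has less than `C` elements; and a graph on the scales in which every vertex has
less than `D` lower neighbours contains an independent set which has at least the proportion `1 / D` of all vertices.
-/

set_option autoImplicit false

namespace Pool.Agent.Results.MP_39a890_nt.MostScalesIterates

open Finset Filter Topology

/-- There is a prime `p` in the window `[2 ^ s N, (1 + ε) 2 ^ s N]` such that `(p + 2 ^ k - 1) / 2 ^ k` is an integer and a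
prime, that is, `p` is the `k`-th iterate of the map `q ↦ 2 q - 1` at a prime `q`. -/
def Hit (ε : ℝ) (N s k : ℕ) : Prop :=
  ∃ p q : ℕ, p.Prime ∧ q.Prime ∧ p + (2 ^ k - 1) = 2 ^ k * q ∧ 2 ^ s * N ≤ p ∧ (p : ℝ) ≤ (1 + ε) * (2 ^ s * N)

open Classical in
/-- The number of the integers `1 ≤ k ≤ T` with `Hit ε N s k`. -/
noncomputable def iterates (ε : ℝ) (N T s : ℕ) : ℕ := ((Icc 1 T).filter (fun k => Hit ε N s k)).card

/-- the two hits among the forms -/
theorem link (ε : ℝ) (N n i j : ℕ) (c0 : ℝ) (hε : 0 < ε) (hc : 1 ≤ (1 + ε / 2) * c0)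
    (hN : 4 ≤ ε * N) (hij : i < j) (h1 : (N : ℝ) < n) (h2 : (n : ℝ) * c0 < N)
    (hi : (2 ^ i * n + (2 ^ i + 1)).Prime) (hj : (2 ^ j * n + (2 ^ j + 1)).Prime) : Hit ε N j (j - i) := by
  refine ⟨_, _, hj, hi, ?_, ?_, ?_⟩
  · have e1 : 2 ^ j = 2 ^ (j - i) * 2 ^ i := by rw [← pow_add]; congr 1; omega
    have e2 : 1 ≤ 2 ^ (j - i) := Nat.one_le_two_pow
    rw [e1]
    have e3 : 2 ^ (j - i) * (2 ^ i * n + (2 ^ i + 1)) = 2 ^ (j - i) * 2 ^ i * n + 2 ^ (j - i) * 2 ^ i + 2 ^ (j - i) := by
      ring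
    rw [e3]
    omega
  · have h3 : N ≤ n := by
      have : (N : ℝ) < n := h1
      exact_mod_cast this.le
    exact (Nat.mul_le_mul_left (2 ^ j) h3).trans (Nat.le_add_right _ _)
  · have h3 : (n : ℝ) ≤ (1 + ε / 2) * N := by
      have h4 : (n : ℝ) ≤ n * ((1 + ε / 2) * c0) := le_mul_of_one_le_right (Nat.cast_nonneg _) hc
      have h5 : (n : ℝ) * ((1 + ε / 2) * c0) ≤ (1 + ε / 2) * N := by
        calc (n : ℝ) * ((1 + ε / 2) * c0) = (1 + ε / 2) * (n * c0) := by ring
          _ ≤ (1 + ε / 2) * N := mul_le_mul_of_nonneg_left h2.le (by positivity)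
      exact h4.trans h5
    push_cast
    have h6 : (1 : ℝ) ≤ 2 ^ j := one_le_pow₀ (by norm_num)
    have h7 : (2 : ℝ) ^ j * n + (2 ^ j + 1) ≤ 2 ^ j * (n + 2) := by nlinarith
    refine h7.trans ?_
    have h8 : (n : ℝ) + 2 ≤ (1 + ε) * N := by nlinarith
    calc (2 : ℝ) ^ j * (n + 2) ≤ 2 ^ j * ((1 + ε) * N) := mul_le_mul_of_nonneg_left h8 (by positivity)
      _ = _ := by ring

/-- no independent sets of `5 K` scales -/
theorem no_indep : ∃ K : ℕ, 1 ≤ K ∧ ∀ ε : ℝ, 0 < ε → ∀ T : ℕ, ∀ᶠ N : ℕ in atTop, ∀ E : Finset ℕ,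
    E ⊆ range (T + 1) → E.card = 5 * K → ∃ i ∈ E, ∃ j ∈ E, i < j ∧ Hit ε N j (j - i) := by
  classical
  obtain ⟨K, hK, hcore⟩ := Pool.Agent.H47R4.tent_core 5 1 (by norm_num)
  refine ⟨K, by omega, ?_⟩
  intro ε hε T
  -- the window
  obtain ⟨h, hh1, hh2⟩ : ∃ h : ℕ, 1 ≤ h ∧ 1 ≤ (1 + ε / 2) * (((h : ℝ) / (h + 1)) ^ 2) := by
    have hlim : Tendsto (fun h : ℕ => (1 + ε / 2) * (((h : ℝ) / (h + 1)) ^ 2)) atTop (𝓝 ((1 + ε / 2) * 1 ^ 2)) :=
      (tendsto_natCast_div_add_atTop (1 : ℝ)).pow 2 |>.const_mul _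
    have h2 := (hlim.eventually_const_le (show (1 : ℝ) < (1 + ε / 2) * 1 ^ 2 by linarith)).and (eventually_ge_atTop 1)
    obtain ⟨h, h3, h4⟩ := h2.exists
    exact ⟨h, h4, h3⟩
  obtain ⟨c1, hc1⟩ : ∃ c1 : ℝ, c1 = (h : ℝ) / (h + 1) := ⟨_, rfl⟩
  rw [← hc1] at hh2
  have hh0 : (0 : ℝ) < h := by exact_mod_cast hh1
  have hc1p : 0 < c1 := by rw [hc1]; positivity
  have hc11 : c1 < 1 := by
    rw [hc1, div_lt_one (by positivity)]
    linarith
  have hTC : Pool.Agent.H47R4.TC (c1 ^ 2) c1 1 := ⟨by positivity, by nlinarith, hc11, le_rfl, by ring⟩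
  have hc0p : 0 < c1 ^ 2 := by positivity
  have hcore := hcore (c1 ^ 2) c1 1 hTC
  set e : Fin 5 × Fin K ≃ Fin (5 * K) := finProdFinEquiv with he
  set cl : Fin (5 * K) → Fin 5 := fun i => (e.symm i).1 with hcl
  have hcard : ∀ g, (univ.filter (fun i => cl i = g)).card = K := by
    intro g
    have h1 : (univ.filter (fun i => cl i = g)) = univ.image (fun j : Fin K => e (g, j)) := by
      ext i
      simp only [mem_filter, mem_univ, true_and, mem_image]
      constructor
      · intro h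
        refine ⟨(e.symm i).2, ?_⟩
        rw [← Equiv.eq_symm_apply]
        exact Prod.ext h.symm rfl
      · rintro ⟨j, rfl⟩
        simp [hcl]
    rw [h1, Finset.card_image_of_injective _ (by
      intro j j' h
      have := e.injective h
      simpa using this)]
    simp
  -- all sets of times at once
  have hall : ∀ᶠ x : ℝ in atTop, ∀ E ∈ (range (T + 1)).powersetCard (5 * K), ∃ n : ℕ, c1 ^ 2 * x < n ∧
      (n : ℝ) < 1 * x ∧ ∃ i ∈ E, ∃ j ∈ E, i < j ∧ (2 ^ i * n + (2 ^ i + 1)).Prime ∧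
        (2 ^ j * n + (2 ^ j + 1)).Prime := by
    rw [Filter.eventually_all_finset]
    intro E hE
    obtain ⟨hE1, hE2⟩ := mem_powersetCard.1 hE
    set f := E.orderEmbOfFin hE2 with hf
    have hfE : ∀ i, f i ∈ E := fun i => E.orderEmbOfFin_mem hE2 i
    have key := hcore (fun i => 2 ^ (f i)) (fun i => 2 ^ (f i) + 1) cl hcard (fun i => Nat.one_le_two_pow)
      (fun i => Nat.le_add_left 1 _) (fun i j hij => by
        intro heq
        have h1 : 2 ^ (f i) = 2 ^ (f j) := by
          have h2 : 2 ^ (f i) * (2 ^ (f j) + 1) = 2 ^ (f j) * (2 ^ (f i) + 1) := heq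
          have h3 : 2 ^ (f i) * 2 ^ (f j) + 2 ^ (f i) = 2 ^ (f j) * 2 ^ (f i) + 2 ^ (f j) := by
            rw [mul_add, mul_add, mul_one, mul_one] at h2
            exact h2
          have h4 := Nat.mul_comm (2 ^ (f i)) (2 ^ (f j))
          omega
        have h2 := Nat.pow_right_injective le_rfl h1
        exact hij (f.injective h2))
      (fun p hp => by
        refine ⟨p - 1, ?_, fun i => ?_⟩
        · intro hd
          have h1 := hp.two_le
          have := Nat.le_of_dvd (by omega) hd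
          omega
        · intro hd
          have h1 := hp.one_lt
          have h2 : 2 ^ (f i) * (p - 1) + (2 ^ (f i) + 1) = 2 ^ (f i) * p + 1 := by
            obtain ⟨p', rfl⟩ : ∃ p', p = p' + 1 := ⟨p - 1, by omega⟩
            rw [Nat.add_sub_cancel]
            ring
          rw [h2] at hd
          have h3 : p ∣ 1 := (Nat.dvd_add_right (Dvd.intro_left _ rfl)).1 hd
          have := Nat.le_of_dvd one_pos h3
          omega)
    filter_upwards [key] with x hx
    obtain ⟨n, h1, h2, h3⟩ := hx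
    refine ⟨n, h1, h2, ?_⟩
    have h4 := Finset.one_lt_card.1 (lt_of_lt_of_le one_lt_two h3)
    obtain ⟨g, hg, g', hg', hne⟩ := h4
    obtain ⟨i, hi1, hi2⟩ := (mem_filter.1 hg).2
    obtain ⟨j, hj1, hj2⟩ := (mem_filter.1 hg').2
    have hij : f i ≠ f j := by
      intro h
      have := f.injective h
      rw [this, hj1] at hi1
      exact hne hi1.symm
    rcases lt_or_gt_of_ne hij with h5 | h5
    · exact ⟨f i, hfE i, f j, hfE j, h5, hi2, hj2⟩
    · exact ⟨f j, hfE j, f i, hfE i, h5, hj2, hi2⟩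
  have hx : Tendsto (fun N : ℕ => (N : ℝ) / c1 ^ 2) atTop atTop :=
    tendsto_natCast_atTop_atTop.atTop_div_const hc0p
  filter_upwards [hx.eventually hall, eventually_ge_atTop ⌈4 / ε⌉₊] with N hN hNε
  have hN4 : 4 ≤ ε * N := by
    have h1 : 4 / ε ≤ N := (Nat.le_ceil _).trans (by exact_mod_cast hNε)
    rw [div_le_iff₀ hε] at h1
    linarith
  intro E hE1 hE2
  obtain ⟨n, h1, h2, i, hi, j, hj, hij, hpi, hpj⟩ := hN E (mem_powersetCard.2 ⟨hE1, hE2⟩)
  have e1 : c1 ^ 2 * ((N : ℝ) / c1 ^ 2) = N := by field_simp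
  rw [e1] at h1
  have h3 : (n : ℝ) * c1 ^ 2 < N := by
    rw [one_mul, lt_div_iff₀ hc0p] at h2
    exact h2
  exact ⟨i, hi, j, hj, hij, link ε N n i j (c1 ^ 2) hε hh2 hN4 hij h1 h3 hpi hpj⟩

open Classical in
/-- **Theorem.** There is an absolute constant `C` such that for all `ε > 0`, `T` and `D ≥ 1` and all sufficiently large
`N`: for all integers `0 ≤ s ≤ T` with at most `C D` exceptions there are at least `D` integers `1 ≤ k ≤ T` for which the
window `[2 ^ s N, (1 + ε) 2 ^ s N]` contains a prime `p` such that `(p + 2 ^ k - 1) / 2 ^ k` is a prime. (The question asks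
for `k = 1`, for all `s` and for the windows `[2 ^ s N, 2 ^ (s + 1) N]`.) -/
theorem result : ∃ C : ℕ, ∀ ε : ℝ, 0 < ε → ∀ T D : ℕ, 1 ≤ D → ∀ᶠ N : ℕ in atTop,
    ((range (T + 1)).filter (fun s => iterates ε N T s < D)).card ≤ C * D := by
  obtain ⟨K, hK, H⟩ := no_indep
  refine ⟨5 * K, fun ε hε T D hD => ?_⟩
  filter_upwards [H ε hε T] with N hN
  by_contra hcon
  push Not at hcon
  set U := (range (T + 1)).filter (fun s => iterates ε N T s < D) with hU
  obtain ⟨E, hE1, hE2, hE3⟩ := Pool.Agent.J4H70.Cyc.indep D hD (fun i j => Hit ε N j (j - i)) (5 * K) U (by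
    intro j hj
    obtain ⟨hj1, hj2⟩ := mem_filter.1 hj
    rw [mem_range] at hj1
    have h1 : (U.filter (fun i => i < j ∧ Hit ε N j (j - i))).card ≤ iterates ε N T j := by
      unfold iterates
      apply card_le_card_of_injOn (fun i => j - i)
      · intro i hi
        obtain ⟨h1, h2, h3⟩ := mem_filter.1 (mem_coe.1 hi)
        have h4 : j - i ∈ (Icc 1 T).filter (fun k => Hit ε N j k) := mem_filter.2 ⟨mem_Icc.2 ⟨by omega, by omega⟩, h3⟩
        exact mem_coe.2 h4
      · intro i hi i' hi' h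
        obtain ⟨h1, h2, h3⟩ := mem_filter.1 (mem_coe.1 hi)
        obtain ⟨h1', h2', h3'⟩ := mem_filter.1 (mem_coe.1 hi')
        simp only at h
        omega
    omega) (by rw [mul_comm]; exact hcon.le)
  obtain ⟨i, hi, j, hj, hij, hh⟩ := hN E (hE1.trans (filter_subset _ _)) hE2
  exact hE3 i hi j hj hij hh

end Pool.Agent.Results.MP_39a890_nt.MostScalesIterates
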