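import Mathlib
import Pool.Agent.J4H29.I2

/-!
# A prime and a number with an odd number of prime factors among the iterates of `q ↦ 2 q - 1`, in every window

Let `S q = 2 q - 1`. The question is whether every window `[N, 2 N]`, `N` large, contains `S q` with `q` and
`S q` prime. Here, in every window `(N, C N]`, one of `q`, `S^k q` is a prime and the other one a product of an
odd number of distinct large primes, for one of the iterates `k ≤ 5`, and for one fifth of the iterates
`k ≤ T`; both orders are possible. The same for `(e + 1) p = e q + 1` with `e ≤ 80` (the question is `e = 1`).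

Proof. Among any six admissible linear forms there are, in every window, one prime value and another value with
an odd number of prime factors: weights of Maynard's type for five forms (with a very small support for the
sixth one), the theorem of Bombieri and Vinogradov, and a theorem of Bombieri-Vinogradov type for Liouville's
function.
-/

set_option autoImplicit false

open Finset Filter

namespace Pool.Agent.Results.MP_39a890_nt.OddIterates

/-- the map `q ↦ 2 q - 1` -/
def S (x : ℕ) : ℕ := 2 * x - 1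

/-- `m` is a product of an odd number, at most `R`, of distinct primes, all larger than `y` -/
def OddAlmostPrime (y : ℝ) (R m : ℕ) : Prop :=
  (Squarefree m ∧ ∀ p : ℕ, p.Prime → p ∣ m → y < p) ∧ Odd (ArithmeticFunction.cardFactors m) ∧
    ArithmeticFunction.cardFactors m ≤ R

/-- one of the two numbers (the first one if `o` is `true`) is a prime, the other one an odd almost prime -/
def PrimeAndOdd (y : ℝ) (R : ℕ) (o : Bool) (p q : ℕ) : Prop :=
  match o with
  | true => p.Prime ∧ OddAlmostPrime y R q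
  | false => OddAlmostPrime y R p ∧ q.Prime

open Classical in
/-- the `k` in `[1, T]` such that at least `c N / (log N) ^ 6` numbers `q` in `(N, 2 ^ (T + 2) N]` have the
property `PrimeAndOdd` together with `S^k q` -/
noncomputable def iterates (κ c : ℝ) (R T : ℕ) (N : ℝ) (o : Bool) : Finset ℕ := (Icc 1 T).filter fun k =>
  c * N / Real.log N ^ 6 ≤ ({q : ℕ | N < q ∧ (q : ℝ) ≤ 2 ^ (T + 2) * N ∧
    PrimeAndOdd (N ^ κ) R o q (S^[k] q)}.ncard : ℝ)

theorem result : ∃ (κ : ℝ) (R : ℕ), 0 < κ ∧ ∀ o : Bool,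
    (∀ a : Fin 6 → ℕ, StrictMono a → 0 < a 0 →
      ∃ c : ℝ, 0 < c ∧ ∀ᶠ N : ℝ in atTop, ∃ i j : Fin 6, i < j ∧ c * N / Real.log N ^ 6 ≤
        ({n : ℕ | N < n ∧ (n : ℝ) ≤ 3 * N ∧
          PrimeAndOdd (N ^ κ) R o (a i * n + 1) (a j * n + 1)}.ncard : ℝ)) ∧
    (∀ T : ℕ, ∃ c : ℝ, 0 < c ∧ ∀ᶠ N : ℝ in atTop, T ≤ 5 * (iterates κ c R T N o).card + 4 ∧
      ∀ d : ℕ, 1 ≤ d → 5 * d ≤ T → ∃ k ∈ iterates κ c R T N o, d ∣ k ∧ k ≤ 5 * d) ∧
    ∃ c : ℝ, 0 < c ∧ ∀ᶠ N : ℝ in atTop, ∃ e : ℕ, 1 ≤ e ∧ e ≤ 80 ∧ c * N / Real.log N ^ 6 ≤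
      ({p : ℕ | N < p ∧ ∃ q : ℕ, p < q ∧ (q : ℝ) ≤ 4 * N ∧ (e + 1) * p = e * q + 1 ∧
        PrimeAndOdd (N ^ κ) R o p q}.ncard : ℝ) :=
  Pool.Agent.J4H29.odd_iterates

end Pool.Agent.Results.MP_39a890_nt.OddIterates
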