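import Pool.Agent.H47R4.Loc
import Pool.Agent.J4H70.Cyc

/-!
# Consecutive integers `c p`, `(c + 1) q` in all windows of ratio `1 + ε`, up to one block of bounded length

The question asks for `q = (p + 1) / 2`, that is `p + 1 = 2 q`, with `p` in every window `[N, 2 N]`; the starting results
of the problem replace `p + 1 = 2 q` by `c p + 1 = (c + 1) q` with a bounded `c` and treat windows of ratio `3 + ε`
(ConsecutiveMultipliers), and pairs of windows of ratio `2` (TwoWindows). Here the windows have the ratio `1 + ε`: for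
every `ε > 0` there is `B` such that for every `L` there is `m` such that for all large `X` the `L` consecutive windows
`[(1 + ε) ^ i X, (1 + ε) ^ (i + 1) X]`, `i < L`, with the exception of some of at most `B` neighbouring ones, contain a
number `c p`, `c < m`, `p` prime, with `c p + 1 = (c + 1) q`, `q` prime. So this holds for almost all scales.

Proof. By the localised Maynard-Tao theorem of the starting files (`Pool.Agent.H47R4.forms_loc`) it is enough to show that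
a set of more than one quarter of the integers of a suitable interval contains two elements whose difference is in one of
two given short windows of very different size. The differences `k` and `k + 1` generate an odd cycle with `2 k + 1`
elements, so that sets without these differences have a density of at most `k / (2 k + 1)`; if the blocks of length
`2 k + 1` which contain elements of the set also miss the second window, then the density is at most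
`(k / (2 k + 1)) ^ 2 < 1 / 4`.
-/

set_option autoImplicit false

namespace Pool.Agent.Results.MP_39a890_nt.OneBlockOfWindows

open Finset Filter Topology

/-- There are `1 ≤ c < m` and primes `p`, `q` with `c p + 1 = (c + 1) q` and `a ≤ c p ≤ b`. -/
def Window (m : ℕ) (a b : ℝ) : Prop :=
  ∃ c p q : ℕ, 1 ≤ c ∧ c < m ∧ p.Prime ∧ q.Prime ∧ c * p + 1 = (c + 1) * q ∧ a ≤ ((c * p : ℕ) : ℝ) ∧
    ((c * p : ℕ) : ℝ) ≤ b

theorem Window.mono {m m' : ℕ} {a b a' b' : ℝ} (h : Window m a b) (hm : m ≤ m') (ha : a' ≤ a) (hb : b ≤ b') :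
    Window m' a' b' := by
  obtain ⟨c, p, q, h1, h2, h3, h4, h5, h6, h7⟩ := h
  exact ⟨c, p, q, h1, by omega, h3, h4, h5, ha.trans h6, h7.trans hb⟩

/-- the numerical inequality for the localisation -/
theorem num1 (k : ℝ) (hk : 10 ≤ k) : (1 + 1 / k) ^ 2 * (1 + 1 / k) ^ 2 ≤ (1 + 7 / k) * (1 - 1 / k) := by
  have hk0 : 0 < k := by linarith
  obtain ⟨x, hx⟩ : ∃ x : ℝ, x = 1 / k := ⟨_, rfl⟩
  have h7 : 7 / k = 7 * x := by rw [hx]; ring
  rw [h7, ← hx]
  have hx0 : 0 < x := by rw [hx]; positivity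
  have hx1 : x ≤ 1 / 10 := by
    rw [hx]
    apply one_div_le_one_div_of_le (by norm_num) hk
  have h2 : x ^ 2 ≤ x * (1 / 10) := by nlinarith
  have h3 : x ^ 3 ≤ x * (1 / 100) := by nlinarith
  have h4 : x ^ 4 ≤ x * (1 / 1000) := by nlinarith
  nlinarith

/-- the two windows for a given ratio -/
theorem two_t (k t : ℕ) (hk : 10 ≤ k) (ht : 4 * k ≤ t) : ∃ m : ℕ, ∃ Y : ℝ, ∀ N₁ N₂ : ℝ, Y ≤ N₁ → 0 < N₁ →
    ((t : ℝ) + 1) * ((2 * k + 1) * N₁) ≤ N₂ → N₂ ≤ ((t : ℝ) + 2) * ((2 * k + 1) * N₁) →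
    Window m N₁ ((1 + 12 / k) * N₁) ∨ Window m N₂ ((1 + 12 / k) * N₂) := by
  have hkr : (10 : ℝ) ≤ k := by exact_mod_cast hk
  have htr : (4 : ℝ) * k ≤ t := by exact_mod_cast ht
  have hk0 : (0 : ℝ) < k := by linarith
  have ht0 : (0 : ℝ) < t := by linarith
  have hT : 4 * (k * k * t) < (2 * k + 1) * ((2 * k + 1) * t) := by
    have h1 : (2 * k + 1) * ((2 * k + 1) * t) = 4 * (k * k * t) + (4 * k * t + t) := by ring
    have h2 : 0 < t := by omega
    omega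
  obtain ⟨m, hm⟩ := Pool.Agent.H47R4.forms_loc ((2 * k + 1) * ((2 * k + 1) * t)) (k * k * t) k hT (by omega)
    (fun Δ => (k ≤ Δ ∧ Δ ≤ k + 1) ∨
      ((2 * k + 1) * (k * t) ≤ Δ + 2 * k ∧ Δ ≤ (2 * k + 1) * ((k + 1) * t) + 2 * k))
    (fun S hS hc => Pool.Agent.J4H70.Cyc.two_scale k t (by omega) (by omega) S hS hc)
  obtain ⟨y0, hy0⟩ := Filter.eventually_atTop.1 hm
  refine ⟨m, |y0|, fun N₁ N₂ hN hN1 hl hu => ?_⟩
  have hN2 : N₁ ≤ N₂ := by
    have h1 : (1 : ℝ) ≤ ((t : ℝ) + 1) * (2 * k + 1) := by nlinarith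
    nlinarith
  obtain ⟨n, p, q, c, Δ, hp, hq, g1, g2, g3, g4, g5, g6, g7, g8⟩ := hy0 (((k : ℝ) + 1) * N₂) (by
    have h1 := le_abs_self y0
    have h2 : N₂ ≤ ((k : ℝ) + 1) * N₂ := by nlinarith
    linarith)
  have hΔ0 : (0 : ℝ) < Δ := by exact_mod_cast g5
  have hn0 : (0 : ℝ) ≤ n := Nat.cast_nonneg _
  have hnΔ : (k + 1) * N₂ ≤ n * Δ := by
    rw [div_le_iff₀ hΔ0] at g7
    exact g7
  -- the upper bound
  have hup : (n : ℝ) * Δ ≤ (1 + 7 / k) * ((k + 1) * N₂) := by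
    have h1 : ((k : ℝ) / (k + 1)) ^ 2 * (1 + 1 / (k : ℝ)) ^ 2 = 1 := by
      rw [← mul_pow]
      have : (k : ℝ) / (k + 1) * (1 + 1 / (k : ℝ)) = 1 := by field_simp
      rw [this]
      norm_num
    have h2 := num1 k hkr
    have h3 : 0 < 1 - 1 / (k : ℝ) := by
      rw [sub_pos, div_lt_one hk0]
      linarith
    have h4 : (1 - 1 / (k : ℝ)) * ((k : ℝ) / (k + 1)) ^ 2 * (n * Δ) ≤ (1 + 1 / (k : ℝ)) ^ 2 * ((k + 1) * N₂) := by
      have h5 := mul_le_mul_of_nonneg_right g8 hΔ0.le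
      calc (1 - 1 / (k : ℝ)) * ((k : ℝ) / (k + 1)) ^ 2 * (n * Δ) =
          (1 - 1 / (k : ℝ)) * ((k : ℝ) / (k + 1)) ^ 2 * n * Δ := by ring
        _ ≤ (1 + 1 / (k : ℝ)) ^ 2 * ((k + 1) * N₂ / Δ) * Δ := h5
        _ = _ := by field_simp
    have h6 := mul_le_mul_of_nonneg_left h4 (show 0 ≤ (1 + 1 / (k : ℝ)) ^ 2 by positivity)
    have h7 : (1 - 1 / (k : ℝ)) * (n * Δ) ≤ (1 - 1 / (k : ℝ)) * ((1 + 7 / k) * ((k + 1) * N₂)) := by
      have hp0 : 0 ≤ (k + 1) * N₂ := by nlinarith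
      calc (1 - 1 / (k : ℝ)) * (n * Δ) =
          (((k : ℝ) / (k + 1)) ^ 2 * (1 + 1 / (k : ℝ)) ^ 2) * ((1 - 1 / (k : ℝ)) * (n * Δ)) := by
            rw [h1, one_mul]
        _ = (1 + 1 / (k : ℝ)) ^ 2 * ((1 - 1 / (k : ℝ)) * ((k : ℝ) / (k + 1)) ^ 2 * (n * Δ)) := by ring
        _ ≤ (1 + 1 / (k : ℝ)) ^ 2 * ((1 + 1 / (k : ℝ)) ^ 2 * ((k + 1) * N₂)) := h6
        _ = ((1 + 1 / (k : ℝ)) ^ 2 * (1 + 1 / (k : ℝ)) ^ 2) * ((k + 1) * N₂) := by ring
        _ ≤ ((1 + 7 / k) * (1 - 1 / k)) * ((k + 1) * N₂) := mul_le_mul_of_nonneg_right h2 hp0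
        _ = _ := by ring
    exact le_of_mul_le_mul_left h7 h3
  have hN20 : 0 < N₂ := by linarith
  have h12 : (1 : ℝ) + 12 / k = (k + 12) / k := by field_simp
  have h17 : (1 : ℝ) + 7 / k = (k + 7) / k := by field_simp
  rw [h17] at hup
  subst g1
  rcases g6 with ⟨g10, g11⟩ | ⟨g10, g11⟩
  · -- the second window
    right
    have e1 : (k : ℝ) ≤ Δ := by exact_mod_cast g10
    have e2 : (Δ : ℝ) ≤ k + 1 := by exact_mod_cast g11
    refine ⟨c, p, q, g3, by omega, hp, hq, g2, ?_, ?_⟩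
    · have : (k + 1) * N₂ ≤ ((c * p : ℕ) : ℝ) * (k + 1) :=
        hnΔ.trans (mul_le_mul_of_nonneg_left e2 hn0)
      nlinarith
    · have h1 : ((c * p : ℕ) : ℝ) * k ≤ (k + 7) / k * ((k + 1) * N₂) :=
        (mul_le_mul_of_nonneg_left e1 hn0).trans hup
      have h2 : (k + 7) / k * ((k + 1) * N₂) ≤ (k + 12) / k * N₂ * k := by
        have e3 : (k + 12) / k * N₂ * k = (k + 12) * N₂ := by field_simp
        rw [e3, div_mul_eq_mul_div, div_le_iff₀ hk0]
        nlinarith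
      rw [h12]
      exact le_of_mul_le_mul_right (h1.trans h2) hk0
  · -- the first window
    left
    have e1 : ((2 : ℝ) * k + 1) * (k * t) ≤ Δ + 2 * k := by exact_mod_cast g10
    have e2 : (Δ : ℝ) ≤ (2 * k + 1) * ((k + 1) * t) + 2 * k := by exact_mod_cast g11
    refine ⟨c, p, q, g3, by omega, hp, hq, g2, ?_, ?_⟩
    · have h1 : N₁ * Δ ≤ (k + 1) * N₂ := by
        calc N₁ * Δ ≤ N₁ * ((2 * k + 1) * ((k + 1) * t) + 2 * k) := mul_le_mul_of_nonneg_left e2 hN1.le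
          _ ≤ (k + 1) * (((t : ℝ) + 1) * ((2 * k + 1) * N₁)) := by nlinarith
          _ ≤ (k + 1) * N₂ := mul_le_mul_of_nonneg_left hl (by linarith)
      exact le_of_mul_le_mul_right (h1.trans hnΔ) hΔ0
    · have hΔ1 : ((2 : ℝ) * k + 1) * (k * t - 1) ≤ Δ := by nlinarith
      have hkt : 0 < (k : ℝ) * t - 1 := by nlinarith
      have hD0 : 0 < ((2 : ℝ) * k + 1) * (k * t - 1) := by positivity
      have h1 : ((c * p : ℕ) : ℝ) * (((2 : ℝ) * k + 1) * (k * t - 1)) ≤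
          (k + 7) / k * ((k + 1) * (((t : ℝ) + 2) * ((2 * k + 1) * N₁))) := by
        refine (mul_le_mul_of_nonneg_left hΔ1 hn0).trans (hup.trans ?_)
        apply mul_le_mul_of_nonneg_left _ (by positivity)
        exact mul_le_mul_of_nonneg_left hu (by linarith)
      have h2 : (k + 7) / k * ((k + 1) * (((t : ℝ) + 2) * ((2 * k + 1) * N₁))) ≤
          (k + 12) / k * N₁ * (((2 : ℝ) * k + 1) * (k * t - 1)) := by
        have h3 : (k + 7) * ((k + 1) * ((t : ℝ) + 2)) ≤ (k + 12) * (k * t - 1) := by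
          nlinarith
        have h4 : 0 ≤ (2 * k + 1) * N₁ / k := by positivity
        have h5 := mul_le_mul_of_nonneg_right h3 h4
        calc (k + 7) / k * ((k + 1) * (((t : ℝ) + 2) * ((2 * k + 1) * N₁))) =
            (k + 7) * ((k + 1) * ((t : ℝ) + 2)) * ((2 * k + 1) * N₁ / k) := by ring
          _ ≤ (k + 12) * (k * t - 1) * ((2 * k + 1) * N₁ / k) := h5
          _ = _ := by ring
      rw [h12]
      exact le_of_mul_le_mul_right (h1.trans h2) hD0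

/-- two windows, all ratios -/
theorem two_all (k : ℕ) (hk : 10 ≤ k) (C : ℕ) : ∃ m : ℕ, ∃ Y : ℝ, ∀ N₁ N₂ : ℝ, Y ≤ N₁ → 0 < N₁ →
    ((4 * k + 1) * (2 * k + 1) : ℝ) * N₁ ≤ N₂ → N₂ ≤ C * N₁ →
    Window m N₁ ((1 + 12 / k) * N₁) ∨ Window m N₂ ((1 + 12 / k) * N₂) := by
  have H : ∀ t : ℕ, ∃ m : ℕ, ∃ Y : ℝ, 4 * k ≤ t → ∀ N₁ N₂ : ℝ, Y ≤ N₁ → 0 < N₁ →
    ((t : ℝ) + 1) * ((2 * k + 1) * N₁) ≤ N₂ → N₂ ≤ ((t : ℝ) + 2) * ((2 * k + 1) * N₁) →
    Window m N₁ ((1 + 12 / k) * N₁) ∨ Window m N₂ ((1 + 12 / k) * N₂) := by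
    intro t
    by_cases ht : 4 * k ≤ t
    · obtain ⟨m, Y, h⟩ := two_t k t hk ht
      exact ⟨m, Y, fun _ => h⟩
    · exact ⟨0, 0, fun h => absurd h ht⟩
  choose m Y H using H
  refine ⟨∑ t ∈ range (C + 1), m t, ∑ t ∈ range (C + 1), |Y t|, fun N₁ N₂ hN hN1 hl hu => ?_⟩
  have hkr : (10 : ℝ) ≤ k := by exact_mod_cast hk
  obtain ⟨D, hD⟩ : ∃ D : ℝ, D = (2 * k + 1) * N₁ := ⟨_, rfl⟩
  have hD0 : 0 < D := by rw [hD]; positivity
  obtain ⟨t, ht⟩ : ∃ t : ℕ, t + 1 = ⌊N₂ / D⌋₊ := by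
    have h1 : 1 ≤ ⌊N₂ / D⌋₊ := by
      apply Nat.le_floor
      rw [le_div_iff₀ hD0, hD]
      push_cast
      nlinarith
    exact ⟨⌊N₂ / D⌋₊ - 1, by omega⟩
  have hN20 : 0 ≤ N₂ := by
    have : 0 < ((4 * k + 1) * (2 * k + 1) : ℝ) * N₁ := by positivity
    linarith
  have h1 : ((t : ℝ) + 1) ≤ N₂ / D := by
    have := Nat.floor_le (show 0 ≤ N₂ / D by positivity)
    rw [← ht] at this
    push_cast at this
    exact this
  have h2 : N₂ / D < (t : ℝ) + 2 := by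
    have := Nat.lt_floor_add_one (N₂ / D)
    rw [← ht] at this
    push_cast at this
    linarith
  rw [le_div_iff₀ hD0] at h1
  rw [div_lt_iff₀ hD0] at h2
  have ht1 : 4 * k ≤ t := by
    have h3 : 4 * k + 1 ≤ t + 1 := by
      rw [ht]
      apply Nat.le_floor
      rw [le_div_iff₀ hD0, hD]
      push_cast
      linarith
    omega
  have ht2 : t ∈ range (C + 1) := by
    rw [mem_range]
    have h3 : ((t : ℝ) + 1) * D ≤ C * D := by
      refine h1.trans (hu.trans ?_)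
      rw [hD]
      apply mul_le_mul_of_nonneg_left _ (Nat.cast_nonneg _)
      nlinarith
    have h4 := le_of_mul_le_mul_right h3 hD0
    have h5 : t + 1 ≤ C := by exact_mod_cast h4
    omega
  have hY : Y t ≤ N₁ := by
    have h3 : |Y t| ≤ ∑ t ∈ range (C + 1), |Y t| := single_le_sum (fun i _ => abs_nonneg (Y i)) ht2
    linarith [le_abs_self (Y t)]
  have hm : m t ≤ ∑ t ∈ range (C + 1), m t := single_le_sum (fun i _ => Nat.zero_le (m i)) ht2
  rw [hD] at h1 h2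
  rcases H t ht1 N₁ N₂ hY hN1 h1 h2.le with h | h
  · exact Or.inl (h.mono hm le_rfl le_rfl)
  · exact Or.inr (h.mono hm le_rfl le_rfl)

/-- **Theorem.** For every `ε > 0` there is `B` such that for every `L` there is `m` such that for all sufficiently large
real `X` there is `i₀` with the following property: for all `i < L` outside the block `[i₀, i₀ + B)` the window
`[(1 + ε) ^ i X, (1 + ε) ^ (i + 1) X]` contains a number `c p` with `1 ≤ c < m` and a prime `p` such that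
`c p + 1 = (c + 1) q` for a prime `q`. -/
theorem result : ∀ ε : ℝ, 0 < ε → ∃ B : ℕ, ∀ L : ℕ, ∃ m : ℕ, ∀ᶠ X : ℝ in atTop, ∃ i₀ : ℕ, ∀ i < L,
    (i < i₀ ∨ i₀ + B ≤ i) → Window m ((1 + ε) ^ i * X) ((1 + ε) ^ (i + 1) * X) := by
  intro ε hε
  obtain ⟨k, hk⟩ : ∃ k : ℕ, k = ⌈12 / ε⌉₊ + 10 := ⟨_, rfl⟩
  have hk10 : 10 ≤ k := by omega
  have hkr : (10 : ℝ) ≤ k := by exact_mod_cast hk10
  have hkε : 12 / (k : ℝ) ≤ ε := by
    have h1 : 12 / ε ≤ k := (Nat.le_ceil _).trans (by rw [hk]; push_cast; linarith)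
    rw [div_le_iff₀ hε] at h1
    rw [div_le_iff₀ (by linarith)]
    linarith
  obtain ⟨B, hB⟩ : ∃ B : ℕ, ((4 * k + 1) * (2 * k + 1) : ℝ) ≤ (1 + ε) ^ B :=
    (pow_unbounded_of_one_lt _ (by linarith)).imp fun _ h => h.le
  refine ⟨B, fun L => ?_⟩
  obtain ⟨m, Y, H⟩ := two_all k hk10 ⌈(1 + ε) ^ L⌉₊
  refine ⟨m, ?_⟩
  filter_upwards [eventually_ge_atTop Y, eventually_gt_atTop 0] with X hX hX0
  classical
  have h1ε : (1 : ℝ) ≤ 1 + ε := by linarith
  by_cases hall : ∀ i < L, Window m ((1 + ε) ^ i * X) ((1 + ε) ^ (i + 1) * X)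
  · exact ⟨0, fun i hi _ => hall i hi⟩
  push Not at hall
  obtain ⟨i₀, hi₀, hmin⟩ := Nat.findX (p := fun i => i < L ∧ ¬ Window m ((1 + ε) ^ i * X) ((1 + ε) ^ (i + 1) * X)) hall
  refine ⟨i₀, fun i hi h => ?_⟩
  by_contra hcon
  rcases h with h | h
  · exact hmin i h ⟨hi, hcon⟩
  have hpow : 1 ≤ (1 + ε) ^ i₀ := one_le_pow₀ h1ε
  have hp0 : 0 < (1 + ε) ^ i₀ * X := by positivity
  have hsucc : ∀ j : ℕ, (1 + 12 / (k : ℝ)) * ((1 + ε) ^ j * X) ≤ (1 + ε) ^ (j + 1) * X := by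
    intro j
    rw [pow_succ]
    have : 0 ≤ (1 + ε) ^ j * X := by positivity
    nlinarith
  rcases H ((1 + ε) ^ i₀ * X) ((1 + ε) ^ i * X) (by nlinarith) hp0 (by
      have e1 : (1 + ε) ^ (i₀ + B) ≤ (1 + ε) ^ i := pow_le_pow_right₀ h1ε h
      rw [pow_add] at e1
      calc ((4 * k + 1) * (2 * k + 1) : ℝ) * ((1 + ε) ^ i₀ * X) ≤ (1 + ε) ^ B * ((1 + ε) ^ i₀ * X) :=
            mul_le_mul_of_nonneg_right hB hp0.le
        _ = (1 + ε) ^ i₀ * (1 + ε) ^ B * X := by ring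
        _ ≤ (1 + ε) ^ i * X := mul_le_mul_of_nonneg_right e1 hX0.le) (by
      have e1 : (1 + ε) ^ i ≤ (1 + ε) ^ L := pow_le_pow_right₀ h1ε hi.le
      have e2 : (1 + ε) ^ L ≤ (⌈(1 + ε) ^ L⌉₊ : ℝ) := Nat.le_ceil _
      have e3 : X ≤ (1 + ε) ^ i₀ * X := by nlinarith
      have e4 : (0 : ℝ) ≤ (⌈(1 + ε) ^ L⌉₊ : ℝ) := Nat.cast_nonneg _
      calc (1 + ε) ^ i * X ≤ (⌈(1 + ε) ^ L⌉₊ : ℝ) * X := mul_le_mul_of_nonneg_right (e1.trans e2) hX0.le
        _ ≤ _ := mul_le_mul_of_nonneg_left e3 e4) with h | h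
  · exact hi₀.2 (h.mono le_rfl le_rfl (hsucc i₀))
  · exact hcon (h.mono le_rfl le_rfl (hsucc i))

end Pool.Agent.Results.MP_39a890_nt.OneBlockOfWindows
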