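import Pool.Agent.J4H33.H8

/-!
# Chains of primes with prescribed multipliers, for almost all tuples of multipliers

Let `w` be ANY weight function on the positive integers up to `N`, `0 ≤ w ≤ 1`, with sum at least `N / D` (for example the
indicator function of the primes of a window). For ALL `k`-tuples `(a_1, …, a_k)` of primes in `[β M, M]` but at most
`M ^ (k - ε) (log N) ^ (k + 1)` of them, and for ALL lengths `M ≤ H_i ≤ N ^ (1 - ρ)` simultaneously, the number of the sequences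
of primes `p_1, …, p_k` with `a_i p_(i-1) - H_i < p_i < a_i p_(i-1)`, `p_0 = n`, summed over `n ≤ N` with the weights `w n`, is
`(1 + O(δ))` times its expected value `(∑ w) ∏ (H_i / log N)`. Here `M` may be a power of `log N`, and there is no exceptional `N`.

Proof. One step: the theorem on arbitrary weights and almost all prime multipliers (`MP_b09185_nt/MultiplesOfAnySet`), which
rests on the theorem on arbitrary sparse sets of multipliers (`MP_711652_nt/SparseDilates`). It is applied to the weights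
`w' p = ∑ w n`, the sum over `n` with `a_1 n - H_1 < p < a_1 n`: after division by their maximum `2 H_1 / (β M)` they have a sum
of the order `N M / (D log N)`, and so on. In the end the lengths are taken from geometric progressions.
-/

set_option autoImplicit false

namespace Pool.Agent.Results.MP_39a890_nt.PrescribedMultipliers

open Finset

/-- the primes in the open interval `(x - H, x)` -/
noncomputable def window (H x : ℝ) : Finset ℕ := (Icc 1 ⌊x⌋₊).filter (fun p => p.Prime ∧ x - H < p ∧ (p : ℝ) < x)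

/-- the number of the sequences of primes `p_1, …, p_k` with `a_i p_(i-1) - H_i < p_i < a_i p_(i-1)`, `p_0 = n`, for the lists
`[a_1, …, a_k]` and `[H_1, …, H_k]` -/
noncomputable def chains : List ℕ → List ℝ → ℕ → ℝ
  | (a :: A), (H :: L), n => ∑ p ∈ window H ((a : ℝ) * n), chains A L p
  | _, _, _ => 1

theorem result (k : ℕ) (γ ε ρ β δ : ℝ) (hγ : 0 < γ) (hε : 0 < ε) (hcond : γ + ε < 1 / 3) (hρ : 0 < ρ) (hβ : 0 < β)
    (hδ : 0 < δ) :
    ∃ t N₀ : ℝ, 0 < t ∧ ∀ N : ℝ, N₀ ≤ N → ∀ M D : ℝ, 1 ≤ D → 0 < M → D * Real.log N ^ (k + 2) ≤ M ^ γ → M ≤ N ^ t →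
      ∀ w : ℕ → ℝ, (∀ n, 0 ≤ w n) → (∀ n, w n ≤ 1) → N / D ≤ ∑ n ∈ Icc 1 ⌊N⌋₊, w n →
      ∃ B : Finset (List ℕ), (B.card : ℝ) ≤ M ^ (k - ε) * Real.log N ^ (k + 1) ∧
        ∀ (A : List ℕ) (L : List ℝ), A.length = k → L.length = k → (∀ a ∈ A, a.Prime ∧ β * M ≤ (a : ℝ) ∧ (a : ℝ) ≤ M) →
          (∀ H ∈ L, M ≤ H ∧ H ≤ N ^ (1 - ρ)) → A ∉ B →
          |∑ n ∈ Icc 1 ⌊N⌋₊, w n * chains A L n - (∑ n ∈ Icc 1 ⌊N⌋₊, w n) * (L.map (fun H => H / Real.log N)).prod| ≤
            δ * ((∑ n ∈ Icc 1 ⌊N⌋₊, w n) * (L.map (fun H => H / Real.log N)).prod) := by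
  obtain ⟨t, N₀, ht, h⟩ := Pool.Agent.J4H33.DU.allH k γ ε ρ β δ hγ hε hcond hρ hβ hδ
  refine ⟨t, N₀, ht, fun N hN M D hD hM h1 h2 w hw0 hw1 hw => ?_⟩
  obtain ⟨B, hB, hB'⟩ := h N hN M D hD hM h1 h2 w hw0 hw1 hw
  refine ⟨B, hB, fun A L hA hL hAP hLH hAB => ?_⟩
  have e : ∀ (A : List ℕ) (L : List ℝ) (n : ℕ), chains A L n = Pool.Agent.J4H33.DU.pch A L n := by
    intro A
    induction A with
    | nil => intro L n; unfold chains Pool.Agent.J4H33.DU.pch; rfl
    | cons a A ih =>
      intro L n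
      obtain _ | ⟨H, L⟩ := L
      · unfold chains Pool.Agent.J4H33.DU.pch; rfl
      · unfold chains Pool.Agent.J4H33.DU.pch
        exact sum_congr rfl fun p _ => ih L p
  have h3 := hB' A L hA hL hAP hLH hAB
  simp only [e]
  exact h3

end Pool.Agent.Results.MP_39a890_nt.PrescribedMultipliers
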